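import Pool.Agent.helper506_rot.Comp
import Pool.Agent.helper506_rot.Sound2
import Pool.Agent.helper506_rot.Pol

/-!
# Good rotation realizability is NP-hard

The problem `GoodRotationRealizable` is defined in `Pool.Agent.helper506_rot.Defs`, word for word
after the problem file.  The proof is a reduction from 3-satisfiability.

In the rotation system of a formula, two adjacent poles are joined to all columns `1, …, N`, so that
in every good drawing the poles and the columns look like `K_{1,1,N}`.  The reference edge joins the
first and the last column.  Every other column lies above or below it, that is, the edge from the
lower pole or the edge from the upper pole to this column crosses the reference edge.  Some columns
are forced to be above or below by edges next to the reference edge at the first column.  If an edge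
`p r` between columns passes above a column `q` between them (this is forced by the rotation at
`p`) and `q` is above the reference edge, then `p` or `r` is above the reference edge.  With such
edges every clause gets a literal above the reference edge, and opposite literals of different
clauses are not both above it.  Conversely, from a satisfying assignment the drawing is made of
piecewise linear monotone curves whose heights over the columns are given by digits.
-/

set_option autoImplicit false

namespace Pool.Agent.Results.MP_b347ba_lc.NPHard

open Pool.Agent.NPC Pool.Agent.helper506_rot

/-- Good rotation realizability is `NP`-hard under polynomial-time many-one reductions. -/
theorem result : NPHardP GoodRotationRealizable :=
  (hardI_SAT3.trans poly_red fun _ => ⟨realizable_of_sat, sat_of_realizable⟩).toNPHardP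

end Pool.Agent.Results.MP_b347ba_lc.NPHard
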